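import Pool.Agent.K1H76.OM.Stm

/-!
# Project OM, piece F1: unfolding the Fourier integral of `G`
-/

set_option autoImplicit false

namespace Pool.Agent.K1H10.OM

open Finset Filter Topology MeasureTheory Pool.Agent.K1H76.OM

theorem T_eq (x : ℝ) : T x = ∑ n ∈ Icc 1 ⌊x⌋₊, ao n := by
  unfold T
  rw [Finset.sum_filter]
  rfl

theorem T_meas : Measurable T := by
  have h : T = (fun N : ℕ => ∑ n ∈ (Icc 1 N).filter (fun n => Odd n),
      (-2 : ℝ) ^ (ArithmeticFunction.cardFactors n)) ∘ (fun x : ℝ => ⌊x⌋₊) := rfl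
  rw [h]
  exact measurable_from_nat.comp Nat.measurable_floor

theorem exists_bound (hT : Good ao) : ∃ C : ℝ, 0 ≤ C ∧ ∀ x : ℝ, 1 ≤ x →
    |T x| ≤ C * x / (1 + Real.log x) ^ 2 := by
  obtain ⟨C, hC⟩ := hT 2
  have hC' : ∀ x : ℝ, 1 ≤ x → |T x| ≤ C * x / (1 + Real.log x) ^ 2 := by
    intro x hx
    rw [T_eq]
    exact hC x hx
  refine ⟨C, ?_, hC'⟩
  have h1 := (abs_nonneg _).trans (hC' 1 le_rfl)
  simpa using h1

theorem sk_re (k : ℤ) : (sk k).re = 1 := by
  have h : sk k = 1 + Complex.I * ((Real.pi * (2 * k + 1) / Real.log 2 : ℝ) : ℂ) := by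
    unfold sk
    push_cast
    rfl
  rw [h, Complex.add_re, Complex.one_re, Complex.mul_re, Complex.I_re, Complex.I_im,
    Complex.ofReal_re, Complex.ofReal_im]
  ring

theorem two_cpow (k : ℤ) : (2 : ℂ) ^ (-(sk k + 1)) = -1 / 4 := by
  have hlog : Complex.log 2 = (Real.log 2 : ℂ) := by
    rw [← Complex.ofReal_ofNat, Complex.ofReal_log (by norm_num)]
  have hl0 : (Real.log 2 : ℂ) ≠ 0 := by
    exact_mod_cast (Real.log_pos (by norm_num : (1 : ℝ) < 2)).ne'
  rw [Complex.cpow_def_of_ne_zero (by norm_num), hlog]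
  have h1 : (Real.log 2 : ℂ) * (-(sk k + 1)) =
      ((-(Real.log 2 * 2) : ℝ) : ℂ) + (((-k : ℤ) : ℂ) * (2 * Real.pi * Complex.I) +
        (-(Real.pi * Complex.I))) := by
    unfold sk
    push_cast
    field_simp
    ring
  rw [h1, Complex.exp_add, Complex.exp_add, Complex.exp_int_mul_two_pi_mul_I, Complex.exp_neg,
    Complex.exp_pi_mul_I, ← Complex.ofReal_exp]
  have h2 : Real.exp (-(Real.log 2 * 2)) = 1 / 4 := by
    rw [Real.exp_neg, show Real.log 2 * 2 = Real.log 2 + Real.log 2 by ring, Real.exp_add,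
      Real.exp_log (by norm_num)]
    norm_num
  rw [h2]
  push_cast
  norm_num

theorem pow_cpow (k : ℤ) (j : ℕ) :
    (((2 : ℝ) ^ j : ℝ) : ℂ) ^ (-(sk k + 1)) = (-1 / 4) ^ j := by
  induction j with
  | zero => simp
  | succ j ih =>
    rw [pow_succ, Complex.ofReal_mul, Complex.mul_cpow_ofReal_nonneg (by positivity)
      (by norm_num), ih, Complex.ofReal_ofNat, two_cpow, pow_succ]

/-- the integrand -/
noncomputable def FF (k : ℤ) (x : ℝ) : ℂ := (T x : ℂ) * (x : ℂ) ^ (-(sk k + 1))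

/-- the terms after the substitution -/
noncomputable def gg (k : ℤ) (j : ℕ) (y : ℝ) : ℂ :=
  (((-1 : ℝ) ^ j * (T (2 ^ j * y) / (2 ^ j * y)) : ℝ) : ℂ) * (y : ℂ) ^ (-(sk k))

theorem scale (k : ℤ) (j : ℕ) (y : ℝ) (hy : 0 < y) :
    ((2 : ℝ) ^ j : ℝ) • FF k (2 ^ j * y) = gg k j y := by
  unfold FF gg
  have hy0 : (y : ℂ) ≠ 0 := by exact_mod_cast hy.ne'
  rw [Complex.ofReal_mul, Complex.mul_cpow_ofReal_nonneg (by positivity) hy.le, pow_cpow,
    neg_add, Complex.cpow_add _ _ hy0, Complex.cpow_neg_one, Complex.real_smul]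
  push_cast
  have h4 : (4 : ℂ) ^ j = 2 ^ j * 2 ^ j := by
    rw [← mul_pow]; norm_num
  rw [div_pow, h4]
  field_simp

theorem meas_FF (k : ℤ) : AEStronglyMeasurable (FF k) (volume.restrict (Set.Ioi 1)) := by
  unfold FF
  refine AEStronglyMeasurable.mul ?_ ?_
  · exact (Complex.measurable_ofReal.comp T_meas).aestronglyMeasurable
  · exact (Complex.measurable_ofReal.pow_const _).aestronglyMeasurable

theorem norm_FF (k : ℤ) {x : ℝ} (hx : 0 < x) : ‖FF k x‖ = |T x| * x ^ (-2 : ℝ) := by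
  unfold FF
  rw [norm_mul, Complex.norm_real, Real.norm_eq_abs, Complex.norm_cpow_eq_rpow_re_of_pos hx]
  congr 2
  simp only [Complex.neg_re, Complex.add_re, sk_re, Complex.one_re]
  norm_num

theorem int_model : IntegrableOn (fun x : ℝ => 1 / (x * (1 + Real.log x) ^ 2)) (Set.Ioi 1) := by
  have hpos : ∀ x : ℝ, 1 ≤ x → 0 < 1 + Real.log x := by
    intro x hx
    have := Real.log_nonneg hx
    linarith
  refine integrableOn_Ioi_deriv_of_nonneg (g := fun x : ℝ => -(1 + Real.log x)⁻¹) (l := 0)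
    ?_ ?_ ?_ ?_
  · apply ContinuousAt.continuousWithinAt
    have h1 : ContinuousAt (fun x : ℝ => 1 + Real.log x) 1 :=
      continuousAt_const.add (Real.continuousAt_log (by norm_num))
    exact (h1.inv₀ (hpos 1 le_rfl).ne').neg
  · intro x hx
    have hx1 : (1 : ℝ) < x := hx
    have hx0 : x ≠ 0 := by linarith
    have h0 := hpos x hx1.le
    have h1 : HasDerivAt (fun x : ℝ => -(1 + Real.log x)⁻¹) (-(-x⁻¹ / (1 + Real.log x) ^ 2)) x :=
      (((Real.hasDerivAt_log hx0).const_add 1).inv h0.ne').neg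
    have e : 1 / (x * (1 + Real.log x) ^ 2) = -(-x⁻¹ / (1 + Real.log x) ^ 2) := by
      rw [neg_div, neg_neg, inv_eq_one_div, div_div]
    rw [e]
    exact h1
  · intro x hx
    have hx1 : (1 : ℝ) < x := hx
    have h0 := hpos x hx1.le
    have : (0 : ℝ) < x := by linarith
    positivity
  · have h1 : Tendsto (fun x : ℝ => 1 + Real.log x) atTop atTop :=
      tendsto_atTop_add_const_left _ _ Real.tendsto_log_atTop
    have h2 := h1.inv_tendsto_atTop.neg
    simpa using h2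

theorem int_FF (hT : Good ao) (k : ℤ) : IntegrableOn (FF k) (Set.Ioi 1) := by
  obtain ⟨C, hC0, hC⟩ := exists_bound hT
  refine (int_model.const_mul C).mono' (meas_FF k) ?_
  rw [ae_restrict_iff' measurableSet_Ioi]
  refine Eventually.of_forall fun x hx => ?_
  have hx1 : (1 : ℝ) < x := hx
  have hx0 : (0 : ℝ) < x := by linarith
  rw [norm_FF k hx0]
  have h1 := hC x hx1.le
  have hl : 0 < 1 + Real.log x := by
    have := Real.log_nonneg hx1.le
    linarith
  have h2 : x ^ (-2 : ℝ) = 1 / (x * x) := by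
    rw [Real.rpow_neg hx0.le, show (2 : ℝ) = ((2 : ℕ) : ℝ) by norm_num, Real.rpow_natCast]
    rw [pow_two, one_div]
  rw [h2]
  calc |T x| * (1 / (x * x)) ≤ C * x / (1 + Real.log x) ^ 2 * (1 / (x * x)) :=
        mul_le_mul_of_nonneg_right h1 (by positivity)
    _ = C * (1 / (x * (1 + Real.log x) ^ 2)) := by field_simp

theorem bound_gg (hT : Good ao) : ∃ C : ℝ, 0 ≤ C ∧ ∀ (k : ℤ) (j : ℕ) (y : ℝ), 1 ≤ y →
    |T (2 ^ j * y) / (2 ^ j * y)| ≤ C / ((j : ℝ) + 1) ^ 2 ∧
    ‖gg k j y‖ ≤ C / ((j : ℝ) + 1) ^ 2 := by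
  obtain ⟨C, hC0, hC⟩ := exists_bound hT
  have hl2 : 0 < Real.log 2 := Real.log_pos (by norm_num)
  have hl2' : Real.log 2 ≤ 1 := by
    have := Real.log_two_lt_d9
    linarith
  refine ⟨C / Real.log 2 ^ 2, by positivity, ?_⟩
  intro k j y hy
  have h2j : (1 : ℝ) ≤ 2 ^ j := one_le_pow₀ (by norm_num)
  have hX : (1 : ℝ) ≤ 2 ^ j * y := one_le_mul_of_one_le_of_one_le h2j hy
  have hX0 : (0 : ℝ) < 2 ^ j * y := by linarith
  have h1 := hC _ hX
  have hlog : ((j : ℝ) + 1) * Real.log 2 ≤ 1 + Real.log (2 ^ j * y) := by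
    rw [Real.log_mul (by positivity) (by linarith), Real.log_pow]
    have := Real.log_nonneg hy
    nlinarith
  have hA : |T (2 ^ j * y) / (2 ^ j * y)| ≤ C / Real.log 2 ^ 2 / ((j : ℝ) + 1) ^ 2 := by
    rw [abs_div, abs_of_pos hX0, div_le_iff₀ hX0]
    refine h1.trans ?_
    have h3 : C * (2 ^ j * y) / (1 + Real.log (2 ^ j * y)) ^ 2 ≤
        C * (2 ^ j * y) / (((j : ℝ) + 1) * Real.log 2) ^ 2 := by
      apply div_le_div_of_nonneg_left (by positivity) (by positivity)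
      exact pow_le_pow_left₀ (by positivity) hlog 2
    refine h3.trans (le_of_eq ?_)
    rw [mul_pow]
    field_simp
  refine ⟨hA, ?_⟩
  unfold gg
  have hy0 : (0 : ℝ) < y := by linarith
  rw [norm_mul, Complex.norm_real, Real.norm_eq_abs, abs_mul, abs_pow, abs_neg, abs_one, one_pow,
    one_mul, Complex.norm_cpow_eq_rpow_re_of_pos hy0, Complex.neg_re, sk_re]
  have h5 : y ^ (-1 : ℝ) ≤ 1 := Real.rpow_le_one_of_one_le_of_nonpos hy (by norm_num)
  calc |T (2 ^ j * y) / (2 ^ j * y)| * y ^ (-1 : ℝ) ≤ |T (2 ^ j * y) / (2 ^ j * y)| * 1 :=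
        mul_le_mul_of_nonneg_left h5 (abs_nonneg _)
    _ ≤ _ := by rw [mul_one]; exact hA

theorem sum_sq : Summable (fun j : ℕ => 1 / ((j : ℝ) + 1) ^ 2) := by
  have h := (summable_nat_add_iff 1).2 (Real.summable_one_div_nat_pow.2 (by norm_num : 1 < 2))
  simpa using h

theorem hasSum_gg (hT : Good ao) (k : ℤ) :
    HasSum (fun j : ℕ => ∫ y in (1:ℝ)..2, gg k j y)
      (∫ y in (1:ℝ)..2, (G y : ℂ) * (y : ℂ) ^ (-(sk k))) := by
  obtain ⟨C, hC0, hC⟩ := bound_gg hT
  have hsumC : Summable (fun j : ℕ => C / ((j : ℝ) + 1) ^ 2) := by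
    refine (sum_sq.mul_left C).congr fun j => ?_
    rw [mul_one_div]
  refine intervalIntegral.hasSum_integral_of_dominated_convergence
    (fun (j : ℕ) (_ : ℝ) => C / ((j : ℝ) + 1) ^ 2) ?_ ?_ ?_ ?_ ?_
  · intro j
    unfold gg
    refine AEStronglyMeasurable.mul ?_ ?_
    · refine (Complex.measurable_ofReal.comp ?_).aestronglyMeasurable
      exact ((T_meas.comp (measurable_const.mul measurable_id)).div
        (measurable_const.mul measurable_id)).const_mul _
    · exact (Complex.measurable_ofReal.pow_const _).aestronglyMeasurable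
  · intro j
    refine Eventually.of_forall fun y hy => ?_
    rw [Set.uIoc_of_le (by norm_num : (1 : ℝ) ≤ 2)] at hy
    exact (hC k j y hy.1.le).2
  · exact Eventually.of_forall fun y _ => hsumC
  · exact intervalIntegrable_const
  · refine Eventually.of_forall fun y hy => ?_
    rw [Set.uIoc_of_le (by norm_num : (1 : ℝ) ≤ 2)] at hy
    have hs : Summable (fun j : ℕ => (-1 : ℝ) ^ j * (T (2 ^ j * y) / (2 ^ j * y))) := by
      refine Summable.of_norm_bounded hsumC ?_
      intro j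
      rw [Real.norm_eq_abs, abs_mul, abs_pow, abs_neg, abs_one, one_pow, one_mul]
      exact (hC k j y hy.1.le).1
    have h1 : HasSum (fun j : ℕ => (((-1 : ℝ) ^ j * (T (2 ^ j * y) / (2 ^ j * y)) : ℝ) : ℂ))
        (G y : ℂ) := by
      have := Complex.hasSum_ofReal.2 hs.hasSum
      exact this
    exact h1.mul_right _

theorem piece (k : ℤ) (j : ℕ) :
    ∫ x in ((2 : ℝ) ^ j)..(2 ^ (j + 1)), FF k x = ∫ y in (1:ℝ)..2, gg k j y := by
  have h1 := intervalIntegral.integral_comp_mul_left (a := (1 : ℝ)) (b := 2) (FF k)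
    (c := (2 : ℝ) ^ j) (by positivity)
  have h2 : ∫ y in (1:ℝ)..2, gg k j y = ∫ y in (1:ℝ)..2, ((2 : ℝ) ^ j : ℝ) • FF k (2 ^ j * y) := by
    refine intervalIntegral.integral_congr fun y hy => ?_
    rw [Set.uIcc_of_le (by norm_num : (1 : ℝ) ≤ 2)] at hy
    exact (scale k j y (by linarith [hy.1])).symm
  rw [h2, intervalIntegral.integral_smul, h1, smul_smul, mul_inv_cancel₀ (by positivity), one_smul,
    mul_one, pow_succ]

theorem t_F1 (hT : Good ao) : S_F1 := by
  intro k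
  have hint := int_FF hT k
  refine ⟨hint, ?_⟩
  have h1 : Tendsto (fun N : ℕ => ∫ x in (1:ℝ)..(2 ^ N), FF k x) atTop
      (𝓝 (∫ x in Set.Ioi (1:ℝ), FF k x)) :=
    intervalIntegral_tendsto_integral_Ioi 1 hint (tendsto_pow_atTop_atTop_of_one_lt (by norm_num))
  have h2 := (hasSum_gg hT k).tendsto_sum_nat
  have h3 : ∀ N : ℕ, ∫ x in (1:ℝ)..(2 ^ N), FF k x =
      ∑ j ∈ range N, ∫ y in (1:ℝ)..2, gg k j y := by
    intro N
    have h4 := intervalIntegral.sum_integral_adjacent_intervals (f := FF k) (μ := volume)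
      (a := fun j : ℕ => (2 : ℝ) ^ j) (n := N) (by
        intro j _
        have hj : (1 : ℝ) ≤ 2 ^ j := one_le_pow₀ (by norm_num)
        have hj' : (2 : ℝ) ^ j ≤ 2 ^ (j + 1) := pow_le_pow_right₀ (by norm_num) (by omega)
        rw [intervalIntegrable_iff_integrableOn_Ioc_of_le hj']
        exact hint.mono_set fun x hx => lt_of_le_of_lt hj hx.1)
    rw [pow_zero] at h4
    rw [← h4]
    exact Finset.sum_congr rfl fun j _ => piece k j
  have h5 : (fun N : ℕ => ∫ x in (1:ℝ)..(2 ^ N), FF k x) =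
      fun N => ∑ j ∈ range N, ∫ y in (1:ℝ)..2, gg k j y := funext h3
  rw [h5] at h1
  exact tendsto_nhds_unique h2 h1

end Pool.Agent.K1H10.OM
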